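import Pool.Agent.Lib.MP_640417_ag.ConjGal
import Pool.Agent.Lib.MP_640417_ag.NondegAll
import Pool.Agent.Lib.MP_640417_ag.RelExotic
import Pool.Agent.Lib.MP_640417_ag.Cls.Line
import Pool.Agent.Lib.MP_640417_ag.Cls.Two
import Pool.Agent.Lib.MP_640417_ag.Cls.Reg
import Pool.Agent.Lib.MP_640417_ag.Cls.D4
import Pool.Agent.Lib.MP_640417_ag.Cls.Four
import Pool.Agent.Lib.MP_640417_ag.Cls.ConvD4
import Pool.Agent.Lib.MP_640417_ag.Cls.ConvV4
import Pool.Agent.Lib.MP_640417_ag.Cls.Field
import Pool.Agent.Lib.MP_640417_ag.Place.Angle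

/-!
# The CM fields with a primitive CM type without exotic classes

A CM field `E` has a primitive CM type `Φ` such that no power of `A_Φ`, and no power of any abelian
variety with an ordinary place of type `(E, Φ)`, has an exotic Tate class, unless `E` is Galois over `ℚ`
and its Galois group is the Klein four group or the dihedral group of order eight. In these cases all
primitive CM types have exotic classes.
-/

namespace Pool.Agent.Lib.MP_640417_ag.Variants.CMFieldClassification

open NumberField Module Pool.Agent.Lib.MP_640417_ag Pool.Agent.Lib.MP_640417_ag.Cls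
  Pool.Agent.Lib.MP_640417_ag.Frob Pool.Agent.Lib.MP_640417_ag.Place

/-- Some power `Aⁿ` carries an exotic Tate class of some codimension `i`, for some Galois
representation of CM type `(E, Φ)`. -/
def HasExotic {E : Type} [Field E] [NumberField E] (Φ : Set (Emb E)) : Prop :=
  ∃ (Γ : Type) (_ : Group Γ) (_ : TopologicalSpace Γ) (F : Type) (_ : Field F)
    (ρ : CMGaloisRep Φ Γ F) (n i : ℕ) (x : ExteriorAlgebra F (H1 E n F)),
    ExoticTateClass (ρ.onH1 n) ρ.χ i x

/-- Some power `Aⁿ` carries an exotic Tate class, for every Galois representation of CM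
type `(E, Φ)` over every field of characteristic zero. -/
def AlwaysExotic {E : Type} [Field E] [NumberField E] (Φ : Set (Emb E)) : Prop :=
  ∀ (Γ : Type) (_ : Group Γ) (_ : TopologicalSpace Γ) (F : Type) (_ : Field F) (_ : CharZero F)
    (ρ : CMGaloisRep Φ Γ F), ∃ (n i : ℕ) (x : ExteriorAlgebra F (H1 E n F)),
    ExoticTateClass (ρ.onH1 n) ρ.χ i x

/-- Some representation with the properties of `H¹` of an abelian variety has an ordinary place of
type `(E, Φ)`, and some power has an exotic Tate class. -/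
def PlaceExotic {E : Type} [Field E] [NumberField E] (Φ : Set (Emb E)) : Prop :=
  ∃ (Γ : Type) (_ : Group Γ) (_ : TopologicalSpace Γ) (_ : IsTopologicalGroup Γ)
    (_ : CompactSpace Γ) (F : Type) (_ : Field F) (_ : TopologicalSpace F)
    (_ : IsTopologicalRing F) (_ : T1Space F) (_ : CharZero F) (V : Type) (_ : AddCommGroup V)
    (_ : Module F V) (_ : FiniteDimensional F V) (ρ : H1Rep Γ F V) (φ : Γ) (p : ℕ)
    (_ : Fact p.Prime), OrdinaryPlace Φ ρ φ p ∧
      ∃ (n i : ℕ) (x : ExteriorAlgebra F (Fin n → V)),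
        ExoticTateClass (fun γ => (ρ.T γ).compLeft (Fin n)) ρ.χ i x

/-- The set `Φ` of embeddings is primitive: distinct embeddings are separated by the translates
of `Φ`. For a CM type this says that `A_Φ` is simple. -/
def IsPrimitive {E : Type} [Field E] [NumberField E] (Φ : Set (Emb E)) : Prop :=
  ∀ φ ψ : Emb E, (∀ τ : AbsGal, galEmb τ φ ∈ Φ ↔ galEmb τ ψ ∈ Φ) → φ = ψ

/-- `E` is Galois over `ℚ` with Galois group the Klein four group or the dihedral group of order
eight. -/
def Exceptional (E : Type) [Field E] [NumberField E] : Prop :=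
  IsGalois ℚ E ∧ (Nonempty ((E ≃ₐ[ℚ] E) ≃* DihedralGroup 2) ∨
    Nonempty ((E ≃ₐ[ℚ] E) ≃* DihedralGroup 4))

section aux

variable {E : Type} [Field E] [NumberField E] [IsCMField E]

/-- A sign function without relations gives a primitive CM type without exotic classes. -/
lemma of_good (z : galGroup E) (hzs : ∀ φ : Emb E, z • φ = conjEmb φ) (h : Good (Emb E) z) :
    ∃ Φ : Set (Emb E), IsCMType Φ ∧ IsPrimitive Φ ∧ ¬ HasExotic Φ ∧ ¬ PlaceExotic Φ := by
  classical
  obtain ⟨e, ⟨he, hez⟩, hrel⟩ := h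
  let Φ : Set (Emb E) := {φ | e φ = 1}
  have hΦ : IsCMType Φ := by
    intro φ
    change e φ = 1 ↔ ¬ e (conjEmb φ) = 1
    rw [← hzs, hez]
    rcases he φ with h | h <;> rw [h] <;> norm_num
  have hsgn : ∀ φ, sgnZ Φ φ = e φ := by
    intro φ
    have h1 : φ ∈ Φ ↔ e φ = 1 := Iff.rfl
    rcases he φ with h | h
    · simp only [sgnZ, h1.mpr h, if_true, h]
    · have h2 : φ ∉ Φ := by
        rw [h1, h]
        norm_num
      simp only [sgnZ, h2, if_false, h]
  have hlat : ∀ v ∈ relLattice Φ, v = 0 := by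
    intro v hv
    apply hrel v
    refine ⟨fun φ => ?_, fun γ => ?_⟩
    · rw [hzs]
      exact hv.1 φ
    · obtain ⟨τ, hτ⟩ := exists_of_galGroup γ
      rw [← hv.2 τ]
      apply Finset.sum_congr rfl
      intro φ _
      rw [hτ, hsgn]
  refine ⟨Φ, hΦ, ?_, ?_, ?_⟩
  · intro φ ψ h
    by_contra hne
    let v : Emb E → ℤ := fun s => (if s = φ then 1 else 0) - (if s = ψ then 1 else 0)
      - (if s = conjEmb φ then 1 else 0) + (if s = conjEmb ψ then 1 else 0)
    have hcj : ∀ s t : Emb E, conjEmb s = t ↔ s = conjEmb t := by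
      intro s t
      constructor
      · rintro rfl
        rw [conjEmb_conjEmb]
      · rintro rfl
        rw [conjEmb_conjEmb]
    have hv : v ∈ relLattice Φ := by
      refine ⟨fun s => ?_, fun τ => ?_⟩
      · simp only [v, hcj, conjEmb_conjEmb]
        ring
      · simp only [v, add_mul, sub_mul, Finset.sum_add_distrib, Finset.sum_sub_distrib, ite_mul,
          one_mul, zero_mul, Finset.sum_ite_eq', Finset.mem_univ, if_true]
        have h1 : sgnZ Φ (galEmb τ φ) = sgnZ Φ (galEmb τ ψ) := by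
          by_cases h5 : galEmb τ ψ ∈ Φ
          · simp only [sgnZ, h5, (h τ).mpr h5, if_true]
          · have h6 : galEmb τ φ ∉ Φ := fun h7 => h5 ((h τ).mp h7)
            simp only [sgnZ, h5, h6, if_false]
        rw [galEmb_conjEmb, galEmb_conjEmb, sgnZ_conj hΦ, sgnZ_conj hΦ, h1]
        ring
    have h0 := congrFun (hlat v hv) φ
    have h2 : φ ≠ conjEmb φ := fun h3 => conjEmb_ne φ h3.symm
    simp only [v, if_true, if_neg hne, if_neg h2, Pi.zero_apply] at h0
    by_cases h3 : φ = conjEmb ψ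
    · rw [if_pos h3] at h0
      norm_num at h0
    · rw [if_neg h3] at h0
      norm_num at h0
  · rintro ⟨Γ, iG, iT, F, iF, ρ, n, i, x, hx⟩
    obtain ⟨v, hv, hv0⟩ := exists_relation ρ hΦ n i x hx
    exact hv0 (hlat v hv)
  · rintro ⟨Γ, _, _, _, _, F, _, _, _, _, _, V, _, _, _, ρ, φ, p, _, hpl, n, i, x, hx⟩
    exact no_exotic hΦ hlat ρ φ p hpl n i x hx

end aux

/-- **Classification.** If the CM field `E` is not Galois over `ℚ` with Klein four or dihedral group
of order eight, there is a primitive CM type `Φ` on `E` such that no power of `A_Φ` has an exotic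
Tate class, and no power of any abelian variety with an ordinary place of type `(E, Φ)` has one. If it
is, every primitive CM type on `E` has exotic Tate classes on some power. -/
theorem result (E : Type) [Field E] [NumberField E] [IsCMField E] :
    (¬ Exceptional E →
      ∃ Φ : Set (Emb E), IsCMType Φ ∧ IsPrimitive Φ ∧ ¬ HasExotic Φ ∧ ¬ PlaceExotic Φ) ∧
    (Exceptional E → ∀ Φ : Set (Emb E), IsCMType Φ → IsPrimitive Φ → AlwaysExotic Φ) := by
  classical
  obtain ⟨c, hc⟩ := exists_galEmb_conj E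
  let act := galAction E
  let z : galGroup E := ⟨MulAction.toPermHom AbsGal (Emb E) c, ⟨c, rfl⟩⟩
  have hzs : ∀ φ : Emb E, z • φ = conjEmb φ := fun φ => hc φ
  have htr := isPretransitive_galGroup (E := E)
  have hfaith : FaithfulSMul (galGroup E) (Emb E) := by
    refine ⟨fun {a b} h => ?_⟩
    apply Subtype.ext
    apply Equiv.ext
    exact h
  have hz : ∀ γ : galGroup E, γ * z = z * γ := by
    intro γ
    apply hfaith.eq_of_smul_eq_smul
    intro φ
    obtain ⟨τ, hτ⟩ := exists_of_galGroup γ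
    rw [mul_smul, mul_smul, hzs, hzs, hτ, hτ, galEmb_conjEmb]
  have hz2 : z * z = 1 := by
    apply hfaith.eq_of_smul_eq_smul
    intro φ
    rw [mul_smul, hzs, hzs, conjEmb_conjEmb, one_smul]
  have hzne : ∀ φ : Emb E, z • φ ≠ φ := fun φ => by rw [hzs]; exact conjEmb_ne φ
  have hne : Nonempty (Emb E) := by
    rw [← Fintype.card_pos_iff, card_emb]
    exact finrank_pos
  obtain ⟨φ₀⟩ := hne
  have hrels : ∀ (Φ : Set (Emb E)), IsCMType Φ → ∀ v ∈ oddRel z (sgnZ Φ), v ∈ relLattice Φ := by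
    intro Φ _ v hv
    refine ⟨fun φ => ?_, fun τ => ?_⟩
    · rw [← hzs]
      exact hv.1 φ
    · exact hv.2 ⟨MulAction.toPermHom AbsGal (Emb E) τ, ⟨τ, rfl⟩⟩
  have hsgns : ∀ (Φ : Set (Emb E)), IsCMType Φ → IsSgn z (sgnZ Φ) := by
    intro Φ hΦ
    exact ⟨sgnZ_eq_one_or Φ, fun s => by rw [hzs]; exact sgnZ_conj hΦ s⟩
  constructor
  · intro hE
    apply of_good z hzs
    by_contra hbad
    by_cases h4 : Nat.card (Emb E) = 4
    · obtain ⟨h1, h2⟩ := pFour (Emb E) (galGroup E) z hz hz2 hzne h4 hbad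
      obtain ⟨h3, h5⟩ := (pField E 2).mpr ⟨h1, h2⟩
      exact hE ⟨h3, Or.inl h5⟩
    by_cases h8 : Nat.card (Emb E) = 8
    · have hst : ¬ ∃ w : Emb E → ℤ, StableSgn z w := by
        rintro ⟨w, hw⟩
        exact hbad (pLine (Emb E) (galGroup E) z hz hz2 hzne φ₀ w hw h4)
      have hsp : ∀ e : Emb E → ℤ, IsSgn z e → ∃ d : Emb E → ℤ, Split z e d := by
        intro e he
        apply pTwo (Emb E) (galGroup E) z hz hz2 hzne h8 hst e he
        by_contra hcon
        push Not at hcon
        exact hbad ⟨e, he, hcon⟩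
      have hfree : ∀ (γ : galGroup E) (φ : Emb E), γ • φ = φ → γ = 1 :=
        fun γ φ h => pReg (Emb E) (galGroup E) z hz hz2 hzne h8 hsp γ φ h
      have hd := pD4 (Emb E) (galGroup E) z hz hz2 hzne h8 hfree hsp
      obtain ⟨h3, h5⟩ := (pField E 4).mpr ⟨hfree, hd⟩
      exact hE ⟨h3, Or.inr h5⟩
    exact hbad (exists_good z hz hz2 hzne φ₀ h4 h8)
  · rintro ⟨hgal, h2 | h4⟩ Φ hΦ hprim
    · exfalso
      obtain ⟨h1, h3⟩ := (pField E 2).mp ⟨hgal, h2⟩
      obtain ⟨φ, ψ, hne, h⟩ := pConvV4 (Emb E) (galGroup E) z hz hz2 hzne φ₀ h1 h3 (sgnZ Φ)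
        (hsgns Φ hΦ)
      apply hne
      apply hprim
      intro τ
      have h5 : sgnZ Φ (galEmb τ φ) = sgnZ Φ (galEmb τ ψ) :=
        h ⟨MulAction.toPermHom AbsGal (Emb E) τ, ⟨τ, rfl⟩⟩
      simp only [sgnZ] at h5
      by_cases h6 : galEmb τ φ ∈ Φ <;> by_cases h7 : galEmb τ ψ ∈ Φ <;> simp [h6, h7] at h5 ⊢
    · obtain ⟨h1, h3⟩ := (pField E 4).mp ⟨hgal, h4⟩
      obtain ⟨v, hv, hv0⟩ := pConvD4 (Emb E) (galGroup E) z hz hz2 hzne φ₀ h1 h3 (sgnZ Φ)
        (hsgns Φ hΦ)
      intro Γ _ _ F _ _ ρ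
      exact exists_exotic_of_relation hΦ hprim (hrels Φ hΦ v hv) hv0 ρ

end Pool.Agent.Lib.MP_640417_ag.Variants.CMFieldClassification
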