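import Pool.Agent.Lib.MP_640417_ag.FC.Main

/-!
# Tate classes on Fermat varieties of all degrees

Let `X_m^n` be the Fermat variety `x_0^m + … + x_{n+1}^m = 0`, `N = n + 2`. Its primitive cohomology of degree `n`
is the sum of lines `V(a)`, where `a` runs through the tuples of `N` nonzero elements of `ℤ/m` with sum zero, and
the Frobenius of a prime of degree one of `ℚ(μ_m)` above `p` acts on `V(a)` by the Jacobi sum
`± p⁻¹ ∏ g(χ^{a_i}, ψ)` (Weil). So `V(a)(n/2)` consists of Tate classes if and only if `a` is a Tate character
(`IsTate m a`): all these numbers, divided by `p ^ (n/2)`, are roots of unity.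

The theorem describes the Tate characters of given length `N` for ALL degrees `m` at once. Let `M` be the least
common multiple of `1, …, (32 N) ^ (2 N)`. Every Tate character is a union of blocks which are members of finitely
many explicit one-parameter families of Hasse-Davenport relations (these classes are algebraic: Shioda,
Aoki), and of one block of level `M`. Modulo Hasse-Davenport relations it is a Tate character of length at most `N`
and of level `M`. So for every `n` the Tate conjecture for all Fermat varieties `X_m^n`, `m = 1, 2, 3, …`,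
follows from the case of one degree. If `N = 2 r` then all but `O(m ^ (r - 1))` of the
`(2 r - 1)!! m ^ r + O(m ^ (r - 1))` Tate characters are sums of pairs (classes of linear subspaces).
-/

namespace Pool.Agent.Lib.MP_640417_ag.Variants.FermatAllDegrees

open Finset Pool.Agent.FC

/-- **Tate characters of Fermat varieties of all degrees.** -/
theorem result :
    (∀ (m N : ℕ) [NeZero m] (a : Fin N → ZMod m), IsTate m a →
      Dec (MM N) (2 ^ (N - 1)) (fun i => ZMod.toAddCircle (a i)) ∧
      ∃ (N' : ℕ) (a' : Fin N' → ZMod (MM N)), N' ≤ N ∧ IsTate (MM N) a' ∧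
        ∑ i, Finsupp.single (ZMod.toAddCircle (a i)) (1 : ℤ) -
          ∑ i, Finsupp.single (ZMod.toAddCircle (a' i)) (1 : ℤ) ∈ HD) ∧
    ∀ r : ℕ, 0 < r → ∃ C : ℕ, ∀ (m : ℕ) [NeZero m],
      {a : Fin (2 * r) → ZMod m | IsTate m a ∧ ¬ PairSum a}.ncard ≤ C * m ^ (r - 1) ∧
      |({a : Fin (2 * r) → ZMod m | IsTate m a}.ncard : ℤ) -
        Nat.doubleFactorial (2 * r - 1) * m ^ r| ≤ C * m ^ (r - 1) := by
  obtain ⟨-, -, h3, h4, h5⟩ := final
  exact ⟨fun m N _ a ha => ⟨h3 m N a ha, h4 m N a ha⟩, h5⟩

end Pool.Agent.Lib.MP_640417_ag.Variants.FermatAllDegrees
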