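import Pool.Agent.Lib.MP_640417_ag.T3.Final

/-!
# A local-global principle for Tate classes on the powers of an abelian variety

Let `A` be an abelian variety over a field finitely generated over `ℚ`. No power of `A` has an exotic
Tate class if and only if `A` has no factor of type III and there is one place with prime residue field
whose Frobenius element passes two tests: it is good (its weights are isolated, which is a condition on
the relations between four eigenvalues), and the determinants on the components of `H¹(A)` have no
relations. In this case almost all such places pass the tests, over a finite extension of the field. It is also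
equivalent that there is no factor of type III, no exotic Tate class of codimension two on the fourth
power (apart from those which the center of the endomorphism algebra moves) and no class of Weil type.
-/

namespace Pool.Agent.Lib.MP_640417_ag.Variants.LocalGlobal

open Module MeasureTheory Pool.Agent.Lib.MP_640417_ag Pool.Agent.Lib.MP_640417_ag.Frob
  Pool.Agent.Lib.MP_640417_ag.Four Pool.Agent.Lib.MP_640417_ag.Lef
  Pool.Agent.Lib.MP_640417_ag.Ctl Pool.Agent.Lib.MP_640417_ag.Gen4
  Pool.Agent.Lib.MP_640417_ag.Dfr Pool.Agent.Lib.MP_640417_ag.Wn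
  Pool.Agent.Lib.MP_640417_ag.T3

/-- **One Frobenius element decides, and almost all Frobenius elements certify.** The case of an
abelian variety: `Γ` is the Galois group of the base field, `V = H¹(A)`, `χ` is the cyclotomic character. -/
theorem result (l : ℕ) [Fact l.Prime] {Γ : Type} [Group Γ] [TopologicalSpace Γ]
    [IsTopologicalGroup Γ] [CompactSpace Γ] [MeasurableSpace Γ] [BorelSpace Γ]
    (ν : Measure Γ) [ν.IsHaarMeasure] {V : Type} [AddCommGroup V] [Module ℚ_[l] V]
    [FiniteDimensional ℚ_[l] V] (ρ : H1Rep Γ ℚ_[l] V) (hss : Semisimple ρ)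
    (hF : Dense {γ | FrobLike ρ γ}) :
    List.TFAE [NoExotic ρ, NoIII ρ ∧ DivGen ρ 4 2 ∧ ¬ WeilRel ρ,
      NoIII ρ ∧ NearOne ν (fun γ => Good ρ γ ∧ (FrobLike ρ γ → DetFree ρ γ)),
      NoIII ρ ∧ ∃ γ, FrobLike ρ γ ∧ Good ρ γ ∧ DetFree ρ γ] := by
  have h := frobenius_decides l ρ hss hF ν
  tfae_have 1 ↔ 2 := h.out 0 1 rfl rfl
  tfae_have 1 ↔ 3 := h.out 0 2 rfl rfl
  tfae_have 1 ↔ 4 := h.out 0 3 rfl rfl
  tfae_finish

end Pool.Agent.Lib.MP_640417_ag.Variants.LocalGlobal
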