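import Pool.Agent.Lib.MP_640417_ag.Frob.MainI

/-!
# One Frobenius suffices

Let `A` be an abelian variety over a field finitely generated over `ℚ`, and `P` the characteristic
polynomial of the Frobenius of some place of good reduction with residue field of `q = p ^ a`
elements. Suppose that `z ^ 2 / q` is not a root of unity for any root `z` of `P`, that over some
field `M` of characteristic `0` all irreducible factors of `P` have degree a power of two and no
product of factors of one degree and with one splitting field has a square discriminant, and that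
the slopes of any two different irreducible factors of `P` over `ℚ` of the same degree and with the
same splitting field have odd denominators (if `P` is irreducible over `ℚ`, there is nothing to
check). Then no power of `A` has an exotic Tate class.
-/

namespace Pool.Agent.Lib.MP_640417_ag.Variants.OneFrobenius

open Module Polynomial Pool.Agent.Lib.MP_640417_ag Pool.Agent.Lib.MP_640417_ag.Frob

/-- **One Frobenius suffices.** The case of an abelian variety: `Γ` is the Galois group of the base
field, `F = ℚ_ℓ`, `V = H¹(A)`, `χ` is the cyclotomic character, `φ` is a Frobenius element with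
characteristic polynomial `P`, and `x` runs through the Tate classes of codimension `i` on `Aⁿ`. -/
theorem result (Γ : Type) [Group Γ] [TopologicalSpace Γ] [IsTopologicalGroup Γ] [CompactSpace Γ]
    (F : Type) [Field F] [TopologicalSpace F] [IsTopologicalRing F] [T1Space F] [CharZero F]
    (V : Type) [AddCommGroup V] [Module F V] [FiniteDimensional F V] (ρ : H1Rep Γ F V)
    (φ : Γ) (p : ℕ) [Fact p.Prime] (a : ℕ) (P : ℤ[X]) (hφ : IsFrobenius ρ φ p a P)
    (hns : ∀ z : ℂ, aeval z P = 0 → ∀ N : ℕ, 0 < N → z ^ (2 * N) ≠ (p : ℂ) ^ (a * N))
    (hslope : ∀ A B : ℚ[X], Irreducible A → Irreducible B → A ∣ P.map (Int.castRingHom ℚ) →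
      B ∣ P.map (Int.castRingHom ℚ) → SameSplit A B → ¬ Associated A B →
      ∀ α : PadicAlgCl p, aeval α A = 0 → OddSlope p a α)
    (M : Type) [Field M] [CharZero M]
    (hpow : ∀ Q : M[X], Irreducible Q → Q ∣ P.map (Int.castRingHom M) → ∃ k, Q.natDegree = 2 ^ k)
    (hdisc : ∀ Q : M[X], Q.Monic → Q ∣ P.map (Int.castRingHom M) → Q ≠ 1 →
      (∀ A B : M[X], Irreducible A → Irreducible B → A ∣ Q → B ∣ Q → SameSplit A B) →
      ¬ IsSquare Q.discr)
    (n i : ℕ) (x : ExteriorAlgebra F (Fin n → V)) :
    ¬ ExoticTateClass (fun γ => (ρ.T γ).compLeft (Fin n)) ρ.χ i x :=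
  main_irr ρ φ p a P hφ hns hslope M hpow hdisc n i x

end Pool.Agent.Lib.MP_640417_ag.Variants.OneFrobenius
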